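import Pool.Agent.K.MP_5c258a_lc.C11

namespace Pool.Agent.Results.MP_5c258a_lc.Binary

open Pool.Agent.P.MP_5c258a_lc Pool.Agent.P.MP_5c258a_lc.Bin MeasureTheory

theorem result : ∃ c : ℝ, 0 < c ∧ ∃ n₀ : ℕ, ∀ n ≥ n₀,
    ∀ (Ω : Type) [MeasurableSpace Ω] (μ : Measure Ω) [IsProbabilityMeasure μ]
      (A : Ω → BAlg n) (z : Fin n → Bool) (σ : Equiv.Perm (Fin n)),
      ENNReal.ofReal (c * (n * Real.log n)) ≤ ∫⁻ ω, btime (A ω) (LO z σ) ∂μ := by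
  obtain ⟨c, hc, n₀, h⟩ := lower
  refine ⟨c, hc, n₀, fun n hn Ω _ μ _ A z σ => ?_⟩
  refine le_trans ?_ (lintegral_mono fun ω => h n hn (A ω) z σ)
  simp

end Pool.Agent.Results.MP_5c258a_lc.Binary
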